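import Pool.Agent.U874.RS.StmC

set_option autoImplicit false

/-!
Project RS part C (helper874), package EDG: the distances of neighbours.
-/

namespace Pool.Agent.U678.RSC

open Pool.Agent.U874.RS
open scoped Real

theorem t_EDG (h : P_DST) : P_EDG := by
  intro n a θ hn ha hθ
  obtain ⟨-, hd⟩ := h n a θ ha hθ
  constructor
  · intro i j hij
    have hlt : i < j := by
      rw [Fin.lt_def]
      omega
    rw [hd i j hlt]
    have h1 : Finset.univ.filter (fun k : Fin n => i ≤ k ∧ k < j) = {i} := by
      ext k
      rw [Finset.mem_filter, Finset.mem_singleton, Fin.le_def, Fin.lt_def, Fin.ext_iff]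
      constructor
      · rintro ⟨-, h2, h3⟩
        omega
      · intro h2
        exact ⟨Finset.mem_univ _, by omega, by omega⟩
    rw [h1, Finset.sum_singleton]
  · intro i j hi hj
    have hlt : i < j := by
      rw [Fin.lt_def]
      omega
    rw [hd i j hlt]
    have h1 : Finset.univ.filter (fun k : Fin n => i ≤ k ∧ k < j) = Finset.univ.erase j := by
      ext k
      rw [Finset.mem_filter, Finset.mem_erase, Fin.le_def, Fin.lt_def, Ne, Fin.ext_iff]
      have h2 := k.2
      constructor
      · rintro ⟨-, h3, h4⟩
        exact ⟨by omega, Finset.mem_univ _⟩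
      · rintro ⟨h3, -⟩
        exact ⟨Finset.mem_univ _, by omega, by omega⟩
    have h3 := Finset.add_sum_erase Finset.univ θ (Finset.mem_univ j)
    rw [hθ.2] at h3
    have h4 : ∑ k ∈ Finset.univ.erase j, θ k = 2 * π - θ j := by linarith
    rw [h1, h4]
    have h5 : (2 * π - θ j) / 2 = π - θ j / 2 := by ring
    rw [h5, Real.sin_pi_sub]

end Pool.Agent.U678.RSC
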